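import Pool.Agent.T6.H37.RO.All
import Pool.Agent.T6.H37.RO.Geo
import Pool.Agent.T6.H37.RO.KFS
import Pool.Agent.T6.H37.RO.Alg
import Pool.Agent.ER.Defs

/-!
# Straight-line realizability of rotation systems of cubic graphs is in P

A rotation system on a finite cubic graph is realized by a straight-line drawing if and only if, for
every complete subgraph on four vertices `w 0, w 1, w 2, w 3`, the number of indices `i` such that
the cyclic order at `w i` lists the three other vertices by increasing index is even.  Hence the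
realizability problem for cubic graphs is decidable in polynomial time, and it is not hard for the
existential theory of the reals unless that class equals P.

Idea of the proof of the positive direction: the vertex set is split into induced cycles, diamonds
(complete graphs on four vertices minus an edge), diamonds with a common neighbour of the two ends,
complete graphs on four vertices, and a set inducing a forest.  First every class is placed at one
point; then the classes are blown up one after the other.
-/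

set_option autoImplicit false

namespace Pool.Agent.Results.MP_8b4fe7_lc.CubicRotationInP

open Pool.Agent.NPC Pool.Agent.T6.H37.RO

/-- A rotation system on the graph `G`: a cyclic order of the neighbours of every vertex (that is,
of the edges at this vertex).  (`Cycle V` is the type of lists up to rotation.) -/
structure RotationSystem {V : Type} (G : SimpleGraph V) where
  /-- the cyclic order of the neighbours of a vertex -/
  order : V → Cycle V
  nodup : ∀ v, (order v).Nodup
  mem_iff : ∀ v u, u ∈ order v ↔ G.Adj v u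

/-- Every vertex has exactly three neighbours. -/
def Cubic {V : Type} (G : SimpleGraph V) : Prop := ∀ v, (G.neighborSet v).ncard = 3

/-- `p` is a straight-line drawing of `G`: the vertices are at distinct points of the plane, and no
vertex lies in the relative interior of the segment between the two ends of an edge. -/
def IsDrawing {V : Type} (G : SimpleGraph V) (p : V → ℝ × ℝ) : Prop :=
  Function.Injective p ∧ ∀ u v w, G.Adj u v → p w ∉ openSegment ℝ (p u) (p v)

/-- The rays from `o` through the points `a 0, a 1, …, a (k - 1)` leave `o` in this counterclockwise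
cyclic order: `a i` has direction angle `θ i`, where `θ 0 < θ 1 < … < θ (k - 1) < θ 0 + 2 π`. -/
def LeaveInOrder (o : ℝ × ℝ) {k : ℕ} (a : Fin k → ℝ × ℝ) : Prop :=
  ∃ θ : Fin k → ℝ, StrictMono θ ∧ (∀ i j, θ j < θ i + 2 * Real.pi) ∧
    ∀ i, ∃ ρ : ℝ, 0 < ρ ∧ a i = o + (ρ * Real.cos (θ i), ρ * Real.sin (θ i))

/-- The drawing `p` realizes the rotation system `π`: for every vertex `v`, the edges at `v` leave
`v` in the counterclockwise cyclic order prescribed by `π`. -/
def Realizes {V : Type} {G : SimpleGraph V} (π : RotationSystem G) (p : V → ℝ × ℝ) : Prop :=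
  ∀ v, ∃ l : List V, (l : Cycle V) = π.order v ∧ LeaveInOrder (p v) (fun i => p (l.get i))

/-- Some straight-line drawing of `G` realizes `π`. -/
def Realizable {V : Type} {G : SimpleGraph V} (π : RotationSystem G) : Prop :=
  ∃ p : V → ℝ × ℝ, IsDrawing G p ∧ Realizes π p

/-- For every complete subgraph on four vertices `w 0, w 1, w 2, w 3`, the number of indices `i` such
that the cyclic order at `w i` is that of the three other vertices by increasing index is even. -/
def EvenOnK4 {V : Type} {G : SimpleGraph V} (π : RotationSystem G) : Prop :=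
  ∀ w : Fin 4 → V, (∀ i j, i ≠ j → G.Adj (w i) (w j)) →
    Even {i : Fin 4 | π.order (w i) = (List.ofFn fun j : Fin 3 => w (i.succAbove j) : Cycle V)}.ncard

/-- The list of lists `I` is the input coding the rotation system `π` of a graph with vertices
`0, …, n - 1`: it has length `n`, and its `v`-th member lists the neighbours of `v` in the cyclic
order prescribed at `v` (starting anywhere). -/
def Encodes (I : List (List ℕ)) {n : ℕ} {G : SimpleGraph (Fin n)} (π : RotationSystem G) : Prop :=
  I.length = n ∧ ∀ v : Fin n, (I.getD v [] : Cycle ℕ) = (π.order v).map Fin.val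

/-- The realizability problem for cubic graphs: `I` codes a rotation system of a cubic graph which is
realized by some straight-line drawing. -/
def CubicRealizability (I : List (List ℕ)) : Prop :=
  ∃ (n : ℕ) (G : SimpleGraph (Fin n)) (π : RotationSystem G),
    Encodes I π ∧ Cubic G ∧ Realizable π

/-! ### From rotation systems to `Rot` -/

theorem cycle3_iff {V : Type} {a b c x y z : V} :
    (([a, b, c] : List V) : Cycle V) = (([x, y, z] : List V) : Cycle V) ↔
      (a = x ∧ b = y ∧ c = z) ∨ (a = y ∧ b = z ∧ c = x) ∨ (a = z ∧ b = x ∧ c = y) := by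
  rw [Cycle.coe_eq_coe, List.IsRotated]
  constructor
  · rintro ⟨k, hk⟩
    rw [← List.rotate_mod] at hk
    have h3 : k % ([a, b, c] : List V).length < 3 := Nat.mod_lt _ (by simp)
    generalize k % ([a, b, c] : List V).length = m at hk h3
    interval_cases m
    · simp at hk; tauto
    · simp [List.rotate_cons_succ] at hk; tauto
    · simp [List.rotate_cons_succ] at hk; tauto
  · rintro (⟨rfl, rfl, rfl⟩ | ⟨rfl, rfl, rfl⟩ | ⟨rfl, rfl, rfl⟩)
    · exact ⟨0, by simp⟩
    · exact ⟨2, by simp [List.rotate_cons_succ]⟩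
    · exact ⟨1, by simp [List.rotate_cons_succ]⟩

theorem exists_list {V : Type} {G : SimpleGraph V} (π : RotationSystem G) (hG : Cubic G)
    (v : V) : ∃ a b c : V, π.order v = (([a, b, c] : List V) : Cycle V) ∧ a ≠ b ∧ b ≠ c ∧ a ≠ c := by
  classical
  obtain ⟨l, hl⟩ : ∃ l : List V, (l : Cycle V) = π.order v := ⟨_, Quotient.out_eq _⟩
  have hnd : l.Nodup := by
    have := π.nodup v
    rw [← hl] at this
    exact this
  have hset : G.neighborSet v = (l.toFinset : Set V) := by
    ext u
    rw [SimpleGraph.mem_neighborSet, ← π.mem_iff, ← hl]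
    simp
  have hlen : l.length = 3 := by
    have := hG v
    rw [hset, Set.ncard_coe_finset, List.toFinset_card_of_nodup hnd] at this
    exact this
  obtain ⟨a, b, c, rfl⟩ := List.length_eq_three.1 hlen
  refine ⟨a, b, c, hl.symm, ?_, ?_, ?_⟩
  · rintro rfl; simp at hnd
  · rintro rfl; simp at hnd
  · rintro rfl; simp at hnd

theorem exists_rot {V : Type} {G : SimpleGraph V} (π : RotationSystem G) (hG : Cubic G) :
    ∃ r : Rot V, (∀ v, π.order v = (([r.n 0 v, r.n 1 v, r.n 2 v] : List V) : Cycle V)) ∧
      ∀ u v, r.Adj u v ↔ G.Adj u v := by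
  choose a b c h hab hbc hac using exists_list π hG
  have hmem : ∀ u v, G.Adj u v ↔ (v = a u ∨ v = b u ∨ v = c u) := by
    intro u v
    rw [← π.mem_iff, h u]
    simp
  let r : Rot V :=
    { n := fun i v => ![a v, b v, c v] i
      inj := by
        intro v i j hij
        have h1 := hab v
        have h2 := hbc v
        have h3 := hac v
        fin_cases i <;> fin_cases j
        · rfl
        · exact absurd hij h1
        · exact absurd hij h3
        · exact absurd hij.symm h1
        · rfl
        · exact absurd hij h2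
        · exact absurd hij.symm h3
        · exact absurd hij.symm h2
        · rfl
      irr := by
        intro v i hi
        have : G.Adj v v := by
          rw [hmem]
          fin_cases i
          · left; exact hi.symm
          · right; left; exact hi.symm
          · right; right; exact hi.symm
        exact G.loopless.irrefl v this
      symm := by
        intro v i
        have h1 : G.Adj v (![a v, b v, c v] i) := by
          rw [hmem]
          fin_cases i <;> simp
        have h2 := h1.symm
        rw [hmem] at h2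
        rcases h2 with h2 | h2 | h2
        · exact ⟨0, h2.symm⟩
        · exact ⟨1, h2.symm⟩
        · exact ⟨2, h2.symm⟩ }
  refine ⟨r, h, fun u v => ?_⟩
  rw [hmem]
  constructor
  · rintro ⟨i, hi⟩
    fin_cases i
    · left; exact hi.symm
    · right; left; exact hi.symm
    · right; right; exact hi.symm
  · rintro (h1 | h1 | h1)
    · exact ⟨0, h1.symm⟩
    · exact ⟨1, h1.symm⟩
    · exact ⟨2, h1.symm⟩

theorem cyc_iff {V : Type} {G : SimpleGraph V} {π : RotationSystem G} {r : Rot V}
    (h : ∀ v, π.order v = (([r.n 0 v, r.n 1 v, r.n 2 v] : List V) : Cycle V)) {v x y z : V} :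
    r.Cyc v x y z ↔ π.order v = (([x, y, z] : List V) : Cycle V) := by
  rw [h v, cycle3_iff]
  constructor
  · rintro ⟨i, h1, h2, h3⟩
    fin_cases i
    · exact Or.inl ⟨h1, h2, h3⟩
    · exact Or.inr (Or.inr ⟨h3, h1, h2⟩)
    · exact Or.inr (Or.inl ⟨h2, h3, h1⟩)
  · rintro (⟨h1, h2, h3⟩ | ⟨h1, h2, h3⟩ | ⟨h1, h2, h3⟩)
    · exact ⟨0, h1, h2, h3⟩
    · exact ⟨2, h3, h1, h2⟩
    · exact ⟨1, h2, h3, h1⟩

theorem leave_iff {o : ℝ × ℝ} {a : Fin 3 → ℝ × ℝ} :
    LeaveInOrder o a ↔ Ccw (a 0 - o) (a 1 - o) (a 2 - o) := by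
  rw [ccw_iff_angles]
  constructor
  · rintro ⟨θ, h1, h2, h3⟩
    have key : ∀ i, PolarAt (a i - o) (θ i) := by
      intro i
      obtain ⟨ρ, hρ, h⟩ := h3 i
      exact ⟨ρ, hρ, by rw [h]; abel⟩
    exact ⟨θ 0, θ 1, θ 2, h1 (by decide), h1 (by decide), h2 0 2, key 0, key 1, key 2⟩
  · rintro ⟨θ₀, θ₁, θ₂, h01, h12, h20, k0, k1, k2⟩
    have hpi := Real.pi_pos
    refine ⟨![θ₀, θ₁, θ₂], ?_, ?_, ?_⟩
    · rw [Fin.strictMono_iff_lt_succ]
      intro i
      fin_cases i
      · exact h01
      · exact h12
    · intro i j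
      fin_cases i <;> fin_cases j <;> simp <;> linarith
    · have key : ∀ {X : ℝ × ℝ} {θ : ℝ}, PolarAt (X - o) θ →
          ∃ ρ : ℝ, 0 < ρ ∧ X = o + (ρ * Real.cos θ, ρ * Real.sin θ) := by
        rintro X θ ⟨ρ, hρ, h⟩
        exact ⟨ρ, hρ, by rw [← h]; abel⟩
      intro i
      fin_cases i
      · exact key k0
      · exact key k1
      · exact key k2

theorem realizes_iff {V : Type} {G : SimpleGraph V} {π : RotationSystem G} {r : Rot V}
    (h : ∀ v, π.order v = (([r.n 0 v, r.n 1 v, r.n 2 v] : List V) : Cycle V))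
    {p : V → ℝ × ℝ} : Realizes π p ↔ ∀ v, Good r p v := by
  unfold Realizes
  apply forall_congr'
  intro v
  constructor
  · rintro ⟨l, hl, hθ⟩
    have hlen : l.length = 3 := by
      have : (l : Cycle V).length = 3 := by rw [hl, h v]; rfl
      simpa using this
    obtain ⟨x, y, z, rfl⟩ := List.length_eq_three.1 hlen
    have h1 : r.Cyc v x y z := (cyc_iff h).2 hl.symm
    rw [good_iff h1]
    exact leave_iff.1 hθ
  · intro hg
    refine ⟨[r.n 0 v, r.n 1 v, r.n 2 v], (h v).symm, ?_⟩
    exact leave_iff.2 hg

theorem even_iff : ∀ s : Fin 4 → Bool, Even (Finset.univ.filter fun i => s i = true).card ↔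
    xor (xor (s 0) (s 1)) (xor (s 2) (s 3)) = false := by decide

theorem signIs_iff {V : Type} {G : SimpleGraph V} {π : RotationSystem G} {r : Rot V}
    (h : ∀ v, π.order v = (([r.n 0 v, r.n 1 v, r.n 2 v] : List V) : Cycle V)) {v x y z : V}
    {s : Bool} (hs : SignIs r v x y z s) :
    π.order v = (([x, y, z] : List V) : Cycle V) ↔ s = true := by
  constructor
  · intro h1
    cases s with
    | true => rfl
    | false =>
      exfalso
      have h2 := hs.2 rfl
      have hne := h2.ne
      have h3 : (([y, x, z] : List V) : Cycle V) = (([x, y, z] : List V) : Cycle V) := by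
        rw [← h1, (cyc_iff h).1 h2]
      rw [cycle3_iff] at h3
      rcases h3 with ⟨h4, -, -⟩ | ⟨-, h4, -⟩ | ⟨h4, -, -⟩
      · exact hne.1 h4
      · exact hne.2.1 h4
      · exact hne.2.2 h4
  · intro h1
    exact (cyc_iff h).1 (hs.1 h1)

theorem even_ncard {V : Type} {G : SimpleGraph V} {π : RotationSystem G}
    {w : Fin 4 → V} {s : Fin 4 → Bool}
    (h0 : π.order (w 0) = (([w 1, w 2, w 3] : List V) : Cycle V) ↔ s 0 = true)
    (h1 : π.order (w 1) = (([w 0, w 2, w 3] : List V) : Cycle V) ↔ s 1 = true)
    (h2 : π.order (w 2) = (([w 0, w 1, w 3] : List V) : Cycle V) ↔ s 2 = true)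
    (h3 : π.order (w 3) = (([w 0, w 1, w 2] : List V) : Cycle V) ↔ s 3 = true) :
    Even {i : Fin 4 | π.order (w i) =
      (List.ofFn fun j : Fin 3 => w (i.succAbove j) : Cycle V)}.ncard ↔
      xor (xor (s 0) (s 1)) (xor (s 2) (s 3)) = false := by
  rw [← even_iff]
  have : {i : Fin 4 | π.order (w i) =
      (List.ofFn fun j : Fin 3 => w (i.succAbove j) : Cycle V)} =
      ((Finset.univ.filter fun i => s i = true : Finset (Fin 4)) : Set (Fin 4)) := by
    ext i
    simp only [Set.mem_ofPred_eq, Finset.coe_filter, Finset.mem_univ, true_and]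
    fin_cases i
    · exact h0
    · exact h1
    · exact h2
    · exact h3
  rw [this, Set.ncard_coe_finset]

theorem evenKFour_iff {V : Type} {G : SimpleGraph V} {π : RotationSystem G} {r : Rot V}
    (h : ∀ v, π.order v = (([r.n 0 v, r.n 1 v, r.n 2 v] : List V) : Cycle V))
    (hadj : ∀ u v, r.Adj u v ↔ G.Adj u v) : EvenKFour r ↔ EvenOnK4 π := by
  constructor
  · intro hE w hw
    have hw' : ∀ i j, i ≠ j → r.Adj (w i) (w j) := fun i j hij => (hadj _ _).2 (hw i j hij)
    have hinj : Function.Injective w := by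
      intro i j hij
      by_contra hne
      exact r.adj_ne (hw' i j hne) hij
    have hne : ∀ i j : Fin 4, i ≠ j → w i ≠ w j := fun i j h hh => h (hinj hh)
    obtain ⟨s0, h0⟩ := r.exists_sign (hw' 0 1 (by decide)) (hw' 0 2 (by decide))
      (hw' 0 3 (by decide)) (hne 1 2 (by decide)) (hne 1 3 (by decide)) (hne 2 3 (by decide))
    obtain ⟨s1, h1⟩ := r.exists_sign (hw' 1 0 (by decide)) (hw' 1 2 (by decide))
      (hw' 1 3 (by decide)) (hne 0 2 (by decide)) (hne 0 3 (by decide)) (hne 2 3 (by decide))
    obtain ⟨s2, h2⟩ := r.exists_sign (hw' 2 0 (by decide)) (hw' 2 1 (by decide))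
      (hw' 2 3 (by decide)) (hne 0 1 (by decide)) (hne 0 3 (by decide)) (hne 1 3 (by decide))
    obtain ⟨s3, h3⟩ := r.exists_sign (hw' 3 0 (by decide)) (hw' 3 1 (by decide))
      (hw' 3 2 (by decide)) (hne 0 1 (by decide)) (hne 0 2 (by decide)) (hne 1 2 (by decide))
    rw [even_ncard (s := ![s0, s1, s2, s3]) (signIs_iff h h0) (signIs_iff h h1) (signIs_iff h h2)
      (signIs_iff h h3)]
    exact hE w ![s0, s1, s2, s3] hinj hw' h0 h1 h2 h3
  · intro hE w s hinj hw h0 h1 h2 h3
    rw [← even_ncard (signIs_iff h h0) (signIs_iff h h1) (signIs_iff h h2) (signIs_iff h h3)]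
    exact hE w fun i j hij => (hadj _ _).1 (hw i j hij)

/-! ### The characterization -/

theorem realizable_iff {V : Type} [Fintype V] {G : SimpleGraph V} (π : RotationSystem G)
    (hG : Cubic G) : Realizable π ↔ EvenOnK4 π := by
  obtain ⟨r, h, hadj⟩ := exists_rot π hG
  rw [← evenKFour_iff h hadj]
  constructor
  · rintro ⟨p, ⟨hinj, hdraw⟩, hreal⟩
    rw [realizes_iff h] at hreal
    intro w s hw hK h0 h1 h2 h3
    have hne : ∀ i j : Fin 4, i ≠ j → p (w i) ≠ p (w j) := fun i j hij hh =>
      hij (hw (hinj hh))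
    have hseg : ∀ i j k : Fin 4, i ≠ j → p (w k) ∉ openSegment ℝ (p (w i)) (p (w j)) :=
      fun i j k hij => hdraw _ _ _ ((hadj _ _).1 (hK i j hij))
    have hcr : ∀ i j k : Fin 4, i ≠ j → i ≠ k → j ≠ k →
        cr (p (w j) - p (w i)) (p (w k) - p (w i)) ≠ 0 := fun i j k hij hik hjk =>
      cr_ne_zero_of_not_mem (hne i j hij) (hne i k hik) (hne j k hjk) (hseg i j k hij)
        (hseg i k j hik) (hseg j k i hjk)
    exact kfn s (fun i => p (w i)) (hcr 0 1 2 (by decide) (by decide) (by decide))
      (hcr 0 1 3 (by decide) (by decide) (by decide))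
      (hcr 0 2 3 (by decide) (by decide) (by decide))
      (hcr 1 2 3 (by decide) (by decide) (by decide))
      (h0.good_iff.1 (hreal _)) (h1.good_iff.1 (hreal _)) (h2.good_iff.1 (hreal _))
      (h3.good_iff.1 (hreal _))
  · intro hE
    obtain ⟨p, hgood, hinj, hgen⟩ := coreTheorem V r hE
    refine ⟨p, ⟨hinj, ?_⟩, (realizes_iff h).2 hgood⟩
    intro u v w huv hw
    have huv' : u ≠ v := huv.ne
    have hcr := cr_eq_zero_of_mem_openSegment hw
    by_cases h1 : w = u
    · subst h1
      have : p w = p v := by
        rwa [left_mem_openSegment_iff] at hw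
      exact huv' (hinj this)
    · by_cases h2 : w = v
      · subst h2
        have : p u = p w := by
          rwa [right_mem_openSegment_iff] at hw
        exact huv' (hinj this)
      · exact hgen u v w huv' (Ne.symm h2) (Ne.symm h1) hcr

/-! ### The decision procedure -/

theorem Encodes.list {I : List (List ℕ)} {n : ℕ} {G : SimpleGraph (Fin n)}
    {π : RotationSystem G} (h : Encodes I π) (hG : Cubic G) (v : Fin n) :
    ∃ a b c : Fin n, nb I v = [(a : ℕ), (b : ℕ), (c : ℕ)] ∧
      π.order v = (([a, b, c] : List (Fin n)) : Cycle (Fin n)) ∧ a ≠ b ∧ b ≠ c ∧ a ≠ c := by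
  obtain ⟨a, b, c, hl, hab, hbc, hac⟩ := exists_list π hG v
  have h1 : (nb I v : Cycle ℕ) = (([(a : ℕ), (b : ℕ), (c : ℕ)] : List ℕ) : Cycle ℕ) := by
    have := h.2 v
    rw [hl] at this
    exact this
  have hlen : (nb I v).length = 3 := by
    have h2 := congrArg Cycle.length h1
    simpa using h2
  obtain ⟨x, y, z, hxyz⟩ := List.length_eq_three.1 hlen
  rw [hxyz, cycle3_iff] at h1
  rcases h1 with ⟨rfl, rfl, rfl⟩ | ⟨rfl, rfl, rfl⟩ | ⟨rfl, rfl, rfl⟩
  · exact ⟨a, b, c, hxyz, hl, hab, hbc, hac⟩
  · refine ⟨b, c, a, hxyz, ?_, hbc, hac.symm, hab.symm⟩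
    rw [hl, cycle3_iff]
    exact Or.inr (Or.inr ⟨rfl, rfl, rfl⟩)
  · refine ⟨c, a, b, hxyz, ?_, hac.symm, hab, hbc.symm⟩
    rw [hl, cycle3_iff]
    exact Or.inr (Or.inl ⟨rfl, rfl, rfl⟩)

/-- the facts about `nb I v` used below -/
def Code (I : List (List ℕ)) {n : ℕ} {G : SimpleGraph (Fin n)} (π : RotationSystem G) : Prop :=
  ∀ v : Fin n, ∃ a b c : Fin n, nb I v = [(a : ℕ), (b : ℕ), (c : ℕ)] ∧
      π.order v = (([a, b, c] : List (Fin n)) : Cycle (Fin n)) ∧ a ≠ b ∧ b ≠ c ∧ a ≠ c

theorem Code.mem {I : List (List ℕ)} {n : ℕ} {G : SimpleGraph (Fin n)} {π : RotationSystem G}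
    (h : Code I π) (v u : Fin n) : (u : ℕ) ∈ nb I v ↔ G.Adj v u := by
  obtain ⟨a, b, c, h1, h2, -⟩ := h v
  rw [← π.mem_iff, h1, h2]
  simp [Fin.ext_iff]

theorem Code.pos {I : List (List ℕ)} {n : ℕ} {G : SimpleGraph (Fin n)} {π : RotationSystem G}
    (h : Code I π) (v x y z : Fin n) :
    π.order v = (([x, y, z] : List (Fin n)) : Cycle (Fin n)) ↔ posq I v x y z = true := by
  obtain ⟨a, b, c, h1, h2, -⟩ := h v
  rw [posq_iff, h1, h2, cycle3_iff]
  simp [Fin.ext_iff]

theorem Code.even {I : List (List ℕ)} {n : ℕ} {G : SimpleGraph (Fin n)} {π : RotationSystem G}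
    (h : Code I π) : EvenOnK4 π ↔ ∀ a b c d : Fin n, evq I a b c d = true := by
  constructor
  · intro hE a b c d
    rw [evq_iff]
    intro hab hac had hbc hbd hcd
    rw [h.mem] at hab hac had hbc hbd hcd
    have := hE ![a, b, c, d] (by
      intro i j hij
      fin_cases i <;> fin_cases j
      · exact absurd rfl hij
      · exact hab
      · exact hac
      · exact had
      · exact hab.symm
      · exact absurd rfl hij
      · exact hbc
      · exact hbd
      · exact hac.symm
      · exact hbc.symm
      · exact absurd rfl hij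
      · exact hcd
      · exact had.symm
      · exact hbd.symm
      · exact hcd.symm
      · exact absurd rfl hij)
    rw [even_ncard (s := ![posq I a b c d, posq I b a c d, posq I c a b d, posq I d a b c])
      (h.pos a b c d) (h.pos b a c d) (h.pos c a b d) (h.pos d a b c)] at this
    exact this
  · intro hd w hw
    have h1 := hd (w 0) (w 1) (w 2) (w 3)
    rw [evq_iff] at h1
    rw [even_ncard (s := ![posq I (w 0) (w 1) (w 2) (w 3), posq I (w 1) (w 0) (w 2) (w 3),
      posq I (w 2) (w 0) (w 1) (w 3), posq I (w 3) (w 0) (w 1) (w 2)])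
      (h.pos _ _ _ _) (h.pos _ _ _ _) (h.pos _ _ _ _) (h.pos _ _ _ _)]
    exact h1 ((h.mem _ _).2 (hw 0 1 (by decide))) ((h.mem _ _).2 (hw 0 2 (by decide)))
      ((h.mem _ _).2 (hw 0 3 (by decide))) ((h.mem _ _).2 (hw 1 2 (by decide)))
      ((h.mem _ _).2 (hw 1 3 (by decide))) ((h.mem _ _).2 (hw 2 3 (by decide)))

theorem cubicRealizability_iff (I : List (List ℕ)) : CubicRealizability I ↔ decq I = true := by
  rw [decq_iff]
  constructor
  · rintro ⟨n, G, π, henc, hG, hreal⟩
    have hcode : Code I π := fun v => henc.list hG v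
    have hn : I.length = n := henc.1
    subst hn
    rw [realizable_iff π hG, hcode.even] at hreal
    refine ⟨fun v hv => ?_, fun a ha b hb c hc d hd => hreal ⟨a, ha⟩ ⟨b, hb⟩ ⟨c, hc⟩ ⟨d, hd⟩⟩
    rw [okv_iff]
    obtain ⟨a, b, c, h1, h2, hab, hbc, hac⟩ := hcode ⟨v, hv⟩
    have h1' : nb I v = [(a : ℕ), (b : ℕ), (c : ℕ)] := h1
    have key : ∀ u : Fin I.length, (u : ℕ) ∈ nb I v → (u : ℕ) < I.length ∧ (u : ℕ) ≠ v ∧
        v ∈ nb I u := by
      intro u hu
      have hadj : G.Adj ⟨v, hv⟩ u := (hcode.mem ⟨v, hv⟩ u).1 hu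
      refine ⟨u.2, ?_, (hcode.mem u ⟨v, hv⟩).2 hadj.symm⟩
      intro h
      exact hadj.ne (Fin.ext h.symm)
    refine ⟨a, b, c, h1', fun h => hab (Fin.ext h), fun h => hbc (Fin.ext h),
      fun h => hac (Fin.ext h), ?_⟩
    intro u hu
    have hu' := hu
    rw [h1'] at hu'
    simp only [List.mem_cons, List.not_mem_nil, or_false] at hu'
    rcases hu' with rfl | rfl | rfl
    · exact key a hu
    · exact key b hu
    · exact key c hu
  · rintro ⟨hok, hev⟩
    have hlist : ∀ v : Fin I.length, ∃ a b c : Fin I.length,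
        nb I v = [(a : ℕ), (b : ℕ), (c : ℕ)] ∧ a ≠ b ∧ b ≠ c ∧ a ≠ c := by
      intro v
      obtain ⟨a, b, c, h1, hab, hbc, hac, h2⟩ := (okv_iff I v).1 (hok v v.2)
      refine ⟨⟨a, (h2 a (by rw [h1]; simp)).1⟩, ⟨b, (h2 b (by rw [h1]; simp)).1⟩,
        ⟨c, (h2 c (by rw [h1]; simp)).1⟩, h1, ?_, ?_, ?_⟩
      · intro h; exact hab (congrArg Fin.val h)
      · intro h; exact hbc (congrArg Fin.val h)
      · intro h; exact hac (congrArg Fin.val h)
    choose a b c hnb hab hbc hac using hlist
    let G : SimpleGraph (Fin I.length) :=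
      { Adj := fun u v => (v : ℕ) ∈ nb I u
        symm := ⟨by
          intro u v huv
          obtain ⟨_, _, _, _, _, _, _, h2⟩ := (okv_iff I u).1 (hok u u.2)
          exact (h2 v huv).2.2⟩
        loopless := ⟨by
          intro u hu
          obtain ⟨_, _, _, _, _, _, _, h2⟩ := (okv_iff I u).1 (hok u u.2)
          exact (h2 u hu).2.1 rfl⟩ }
    let π : RotationSystem G :=
      { order := fun v => (([a v, b v, c v] : List (Fin I.length)) : Cycle (Fin I.length))
        nodup := by
          intro v
          have h1 := hab v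
          have h2 := hbc v
          have h3 := hac v
          simp [h1, h2, h3]
        mem_iff := by
          intro v u
          show _ ↔ (u : ℕ) ∈ nb I v
          rw [hnb]
          simp [Fin.ext_iff] }
    have hG : Cubic G := by
      intro v
      have : G.neighborSet v = {a v, b v, c v} := by
        ext u
        rw [SimpleGraph.mem_neighborSet]
        show (u : ℕ) ∈ nb I v ↔ _
        rw [hnb]
        simp [Fin.ext_iff]
      rw [this]
      exact Set.ncard_eq_three.2 ⟨_, _, _, hab v, hac v, hbc v, rfl⟩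
    have hcode : Code I π := fun v => ⟨a v, b v, c v, hnb v, rfl, hab v, hbc v, hac v⟩
    refine ⟨I.length, G, π, ⟨rfl, fun v => ?_⟩, hG, ?_⟩
    · have h1 : I.getD v [] = [(a v : ℕ), (b v : ℕ), (c v : ℕ)] := hnb v
      rw [h1]
      rfl
    · rw [realizable_iff π hG, hcode.even]
      intro a b c d
      exact hev a a.2 b b.2 c c.2 d d.2

/-- **Realizability of rotation systems of cubic graphs.**  A rotation system of a finite cubic
graph is realized by a straight-line drawing if and only if it satisfies the parity condition on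
every complete subgraph on four vertices; the realizability problem for cubic graphs is in P; and
so, if it is hard for the existential theory of the reals, then this class is contained in P. -/
theorem result :
    (∀ (V : Type) [Finite V] (G : SimpleGraph V) (π : RotationSystem G), Cubic G →
      (Realizable π ↔ EvenOnK4 π)) ∧
    InPP CubicRealizability ∧
    (ER.ERHard (lang CubicRealizability) → ∀ L, ER.InER L → InP L) := by
  have hP : InPP CubicRealizability := inPP_of poly_decq cubicRealizability_iff
  refine ⟨?_, hP, fun h L hL => InP.of_reduces (h L hL) hP⟩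
  intro V _ G π hG
  have := Fintype.ofFinite V
  exact realizable_iff π hG

end Pool.Agent.Results.MP_8b4fe7_lc.CubicRotationInP
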